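import Pool.Agent.MNT.StmtsT

/-!
# MNT, row LFT (feet of the points), helper46
-/

set_option autoImplicit false

namespace Pool.Agent.MNT.H46

variable {P : Type} [Fintype P] [DecidableEq P]

theorem nested (Λ : Lam P) {c d : Finset P} (hc : c ∈ Λ.V) (hd : d ∈ Λ.V) {x : P} (hx : x ∈ c)
    (hx' : x ∈ d) : c ⊆ d ∨ d ⊆ c := by
  rcases Λ.lam c hc d hd with h | h | h
  · exact Or.inl h
  · exact Or.inr h
  · exact absurd hx' (Finset.disjoint_left.1 h hx)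

theorem exists_foot (Λ : Lam P) {R : Finset P} (hR : R.Nonempty) (x : P) :
    ∃ f ∈ Λ.V, (f ∩ R).Nonempty ∧ x ∈ f ∧ ∀ d ∈ Λ.V, (d ∩ R).Nonempty → x ∈ d → f ⊆ d := by
  have hne : (Λ.V.filter fun d => (d ∩ R).Nonempty ∧ x ∈ d).Nonempty :=
    ⟨Finset.univ, Finset.mem_filter.2 ⟨Λ.top_mem, by rwa [Finset.univ_inter],
      Finset.mem_univ x⟩⟩
  obtain ⟨f, hf, hmin⟩ := Finset.exists_min_image _ Finset.card hne
  rw [Finset.mem_filter] at hf
  refine ⟨f, hf.1, hf.2.1, hf.2.2, fun d hd hdR hx => ?_⟩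
  rcases nested Λ hf.1 hd hf.2.2 hx with h | h
  · exact h
  · have h1 := hmin d (Finset.mem_filter.2 ⟨hd, hdR, hx⟩)
    rw [Finset.eq_of_subset_of_card_le h h1]

theorem kids_disjoint (Λ : Lam P) {u s s' : Finset P} (h : Λ.Kid u s) (h' : Λ.Kid u s')
    (hne : s ≠ s') : Disjoint s s' := by
  rcases Λ.lam s h.1 s' h'.1 with h1 | h1 | h1
  · exact absurd (h.2.2 s' h'.1 (h1.ssubset_of_ne hne)) h'.2.1.2
  · exact absurd (h'.2.2 s h.1 (h1.ssubset_of_ne hne.symm)) h.2.1.2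
  · exact h1

theorem exists_kid (Λ : Lam P) {u f : Finset P} (hu : u ∈ Λ.V) (hf : f ∈ Λ.V) (hfu : f ⊂ u)
    {x : P} (hx : x ∈ f) : ∃ s, Λ.Kid u s ∧ f ⊆ s := by
  have hne : (Λ.V.filter fun d => f ⊆ d ∧ d ⊂ u).Nonempty :=
    ⟨f, Finset.mem_filter.2 ⟨hf, Finset.Subset.refl f, hfu⟩⟩
  obtain ⟨s, hs, hmax⟩ := Finset.exists_max_image _ Finset.card hne
  rw [Finset.mem_filter] at hs
  refine ⟨s, ⟨hs.1, hs.2.2, fun d hd hsd => ?_⟩, hs.2.1⟩
  have hxd : x ∈ d := hsd.1 (hs.2.1 hx)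
  rcases nested Λ hu hd (hfu.1 hx) hxd with h | h
  · exact h
  · by_contra h1
    have h2 := hmax d (Finset.mem_filter.2 ⟨hd, hs.2.1.trans hsd.1, h, h1⟩)
    exact absurd (Finset.card_lt_card hsd) (not_lt.2 h2)

theorem count (Λ : Lam P) {R : Finset P} (foot : P → Finset P)
    (hfoot : ∀ x, foot x ∈ Λ.V ∧ (foot x ∩ R).Nonempty ∧ x ∈ foot x ∧
      ∀ d ∈ Λ.V, (d ∩ R).Nonempty → x ∈ d → foot x ⊆ d) {u : Finset P} (hu : u ∈ Λ.V)
    (huR : (u ∩ R).Nonempty) [DecidablePred fun s => Λ.Kid u s ∧ (s ∩ R).Nonempty]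
    [DecidablePred fun x => x ∉ R ∧ foot x = u] :
    (((Finset.univ.filter fun x => x ∉ R ∧ foot x = u).card : ℕ) : ℝ) =
      ((u \ R).card : ℝ) - ∑ s ∈ Λ.V with Λ.Kid u s ∧ (s ∩ R).Nonempty, ((s \ R).card : ℝ) := by
  have h1 : (Finset.univ.filter fun x => x ∉ R ∧ foot x = u) =
      (u \ R) \ (Λ.V.filter fun s => Λ.Kid u s ∧ (s ∩ R).Nonempty).biUnion fun s => s \ R := by
    ext x
    simp only [Finset.mem_filter, Finset.mem_univ, true_and, Finset.mem_sdiff, Finset.mem_biUnion,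
      not_exists, not_and, not_not]
    constructor
    · rintro ⟨hx, hf⟩
      refine ⟨⟨by rw [← hf]; exact (hfoot x).2.2.1, hx⟩, fun s hs hxs => ?_⟩
      exfalso
      have h2 := (hfoot x).2.2.2 s hs.1 hs.2.2 hxs
      rw [hf] at h2
      exact hs.2.1.2.1.2 h2
    · rintro ⟨⟨hxu, hx⟩, h⟩
      refine ⟨hx, ?_⟩
      by_contra hne
      have h2 : foot x ⊆ u := (hfoot x).2.2.2 u hu huR hxu
      obtain ⟨s, hs, hfs⟩ := exists_kid Λ hu (hfoot x).1 (h2.ssubset_of_ne hne) (hfoot x).2.2.1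
      have hsR : (s ∩ R).Nonempty :=
        (hfoot x).2.1.mono (Finset.inter_subset_inter hfs (Finset.Subset.refl R))
      exact hx (h s ⟨hs.1, hs, hsR⟩ (hfs (hfoot x).2.2.1))
  have h2 : ((Λ.V.filter fun s => Λ.Kid u s ∧ (s ∩ R).Nonempty).biUnion fun s => s \ R) ⊆
      u \ R := by
    intro x hx
    rw [Finset.mem_biUnion] at hx
    obtain ⟨s, hs, hxs⟩ := hx
    rw [Finset.mem_filter] at hs
    rw [Finset.mem_sdiff] at hxs ⊢
    exact ⟨hs.2.1.2.1.1 hxs.1, hxs.2⟩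
  have h3 : ((Λ.V.filter fun s => Λ.Kid u s ∧ (s ∩ R).Nonempty).biUnion fun s => s \ R).card =
      ∑ s ∈ Λ.V with Λ.Kid u s ∧ (s ∩ R).Nonempty, (s \ R).card := by
    refine Finset.card_biUnion fun s hs s' hs' hne => ?_
    rw [Finset.mem_coe, Finset.mem_filter] at hs hs'
    exact (kids_disjoint Λ hs.2.1 hs'.2.1 hne).mono Finset.sdiff_subset Finset.sdiff_subset
  rw [h1, Finset.cast_card_sdiff h2, h3]
  push_cast
  rfl

theorem lft : LftStmt := by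
  intro P _ _ Λ R hR
  choose foot h1 h2 h3 h4 using fun x => exists_foot Λ hR x
  refine ⟨foot, fun x => ⟨h1 x, h2 x, h3 x, h4 x⟩, fun u hu huR => ?_⟩
  classical
  exact count Λ foot (fun x => ⟨h1 x, h2 x, h3 x, h4 x⟩) hu huR

end Pool.Agent.MNT.H46
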